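import Pool.Agent.helper59.ZB.SpecH

/-!
# Row zbh:HAIT (MP_baa4d7_al): `|D| η(1) / |Cz z|` is integral at `M`
-/

set_option autoImplicit false

namespace Pool.Agent.GB

open Pool.Agent.helper58.DC Pool.Agent.DI Pool.Agent.GR Pool.Agent.OB Pool.Agent.DR Pool.Agent.FI Pool.Agent.FI3 Pool.Agent.FI4 Pool.Agent.LE Pool.Agent.BR

theorem HAIT (hDFZ : DFZ_stmt) (hB2 : B2_stmt) : HAIT_stmt := by
  classical
  intro p M hS G _ _ D x θ χ lo z hz hzc η hη
  obtain ⟨K, hK⟩ : ∃ K : Subgroup G, K = Cz (⊤ : Subgroup G) z := ⟨_, rfl⟩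
  rw [← hK] at hη ⊢
  have hDK : D ≤ K := by
    intro d hd
    rw [hK, mem_Cz]
    exact ⟨Subgroup.mem_top d, ((Subgroup.mem_centralizer_iff.1 hzc) d hd).symm⟩
  have hcK : cz D ≤ K := by
    intro y hy
    rw [hK, mem_Cz]
    exact ⟨Subgroup.mem_top y, (Subgroup.mem_centralizer_iff.1 hy) z hz⟩
  have hηI : η ∈ IrrOn K := hη.1
  obtain ⟨x', -, -, hd⟩ := hDFZ p M hS G D x θ χ lo K hDK hcK η hηI hη.2.symm
  obtain ⟨⟨n, hn0, hn1, -⟩, -, hint, -⟩ := (hB2 G K).2 η hηI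
  have hp := hS.pr
  have hcard := hd.card
  unfold pp at hcard
  set a : ℕ := padicValNat p (Nat.card (Cz K x')) with ha
  have := Fact.mk hp
  obtain ⟨c, hc⟩ : p ^ a ∣ Nat.card (Cz K x') := by
    rw [ha]
    exact pow_padicValNat_dvd
  have hCpos : 0 < Nat.card (Cz K x') := Nat.card_pos
  have hcp : ¬ p ∣ c := by
    rintro ⟨c', hc'⟩
    have hc0 : c' ≠ 0 := by
      rintro rfl
      rw [hc', mul_zero, mul_zero] at hc
      omega
    have h1 : padicValNat p (Nat.card (Cz K x')) = a + (1 + padicValNat p c') := by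
      rw [hc, hc', padicValNat.mul (pow_ne_zero _ hp.ne_zero) (mul_ne_zero hp.ne_zero hc0),
        padicValNat.prime_pow, padicValNat.mul hp.ne_zero hc0, padicValNat.self hp.one_lt]
    omega
  have hnC : (n : ℂ) ≠ 0 := by exact_mod_cast hn0.ne'
  have hLC : (Nat.card K : ℂ) ≠ 0 := by
    have h : 0 < Nat.card K := Nat.card_pos
    exact_mod_cast h.ne'
  have hccI : IsIntegral ℤ (cc η (cls K x')) := cc_cls_int le_rfl hηI x'
  have h2 := cc_cls hηI x'
  rw [hn1, hc] at h2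
  push_cast at h2
  have hcI : IsIntegral ℤ ((c : ℂ) * cc η (cls K x')) := by
    have h := isIntegral_algebraMap (R := ℤ) (A := ℂ) (x := (c : ℤ))
    have h' : IsIntegral ℤ (c : ℂ) := by simpa using h
    exact h'.mul hccI
  have hcM : ¬ InM M ((c : ℂ) * cc η (cls K x')) := by
    intro h5
    rcases InM.or hS (IntAt.natCast hS c) (IntAt.of_isIntegral hS hccI) h5 with h6 | h6
    · exact hcp ((InM.natCast hS c).1 h6)
    · exact hd.ne h6
  rw [hn1]
  refine ⟨⟨η x', hint x'⟩, ⟨_, hcI⟩, fun h => hcM (InM.coe hS h), ?_⟩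
  change (Nat.card D : ℂ) * n / Nat.card K * ((c : ℂ) * cc η (cls K x')) = η x'
  rw [hcard]
  push_cast
  have h3 : (n : ℂ) * (η x' / n) = η x' := mul_div_cancel₀ _ hnC
  have h4 : (p : ℂ) ^ a * n / Nat.card K * ((c : ℂ) * cc η (cls K x')) =
      n * ((p : ℂ) ^ a * c * cc η (cls K x')) / Nat.card K := by ring
  rw [h4, h2, ← mul_assoc, mul_comm (n : ℂ), mul_assoc, h3, mul_div_assoc, mul_comm, div_mul_cancel₀ _ hLC]

end Pool.Agent.GB
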