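import Pool.Agent.helper59.ZB.SpecH
import Pool.Agent.helper39.LZ.ZX0

/-!
# Row zbh:HX0T (MP_baa4d7_al): the character `η₀`
-/

set_option autoImplicit false

namespace Pool.Agent.GB

open Pool.Agent.helper58.DC Pool.Agent.DI Pool.Agent.GR Pool.Agent.OB Pool.Agent.DR Pool.Agent.FI Pool.Agent.FI3 Pool.Agent.FI4 Pool.Agent.LE Pool.Agent.BR

theorem HX0T (hZL1 : ZL1_stmt) (hBLE : BLE_stmt) (hSBI : SBI_stmt) (hEXB : EXB_stmt) (hQEI : QEI_stmt) (hB2 : B2_stmt) : HX0T_stmt := by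
  classical
  intro p M hS G _ _ D x θ χ lo z hz hzc
  obtain ⟨K, hK⟩ : ∃ K : Subgroup G, K = Cz (⊤ : Subgroup G) z := ⟨_, rfl⟩
  rw [← hK]
  have hft : Fintype G := Fintype.ofFinite G
  have hfin : (IrrOn K).Finite := (hB2 G K).1
  have hDK : D ≤ K := by
    intro d hd
    rw [hK, mem_Cz]
    exact ⟨Subgroup.mem_top d, ((Subgroup.mem_centralizer_iff.1 hzc) d hd).symm⟩
  have hcK : K ⊓ cz D = cz D := by
    rw [inf_eq_right]
    intro y hy
    rw [hK, mem_Cz]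
    exact ⟨Subgroup.mem_top y, (Subgroup.mem_centralizer_iff.1 hy) z hz⟩
  obtain ⟨ψ, hψ, hSB⟩ := hEXB p M hS G K D lo.dfa.pgrp hDK θ (by rw [hcK]; exact lo.th)
  obtain ⟨b1, b2, b3, -, b5, -, b7, b8⟩ := hBLE p M hS G K K le_rfl θ
  rw [b8] at b1 b2 b3 b5 b7
  have hψb : ψ ∈ Bl M K θ := ⟨hψ, hSB.symm⟩
  obtain ⟨e, he⟩ : ∃ e : G → ℂ, e = eS K (Bl M K θ) := ⟨_, rfl⟩
  rw [← he] at b2 b3 b5 b7
  obtain ⟨a, ha, hav⟩ := ZX0_exp hZL1 hB2 p M hS G K _ (fun v => e v⁻¹) (fun v => b3 _) (fun k hk v => by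
    have h1 : (k * v * k⁻¹)⁻¹ = k * v⁻¹ * k⁻¹ := by group
    show e (k * v * k⁻¹)⁻¹ = e v⁻¹
    rw [h1, b2.1 k hk]) le_rfl
  have hee : ∀ v, e v = ∑ η ∈ hfin.toFinset, a η * kap p K η v := by
    intro v
    by_cases hv : v ∈ K ∧ PReg p v
    · have h1 := hav v⁻¹ (K.inv_mem hv.1) (by unfold PReg; rw [orderOf_inv]; exact hv.2)
      rw [inv_inv, finsum_mem_eq_finite_toFinset_sum _ hfin] at h1
      rw [h1]
      refine Finset.sum_congr rfl fun η _ => ?_
      unfold kap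
      rw [if_pos hv]
    · have h1 : e v = 0 := by
        by_cases h2 : v ∈ K
        · exact b7 v fun h3 => hv ⟨h2, h3⟩
        · exact b2.2 v h2
      rw [h1]
      refine (Finset.sum_eq_zero fun η _ => ?_).symm
      unfold kap
      rw [if_neg hv, mul_zero]
  have hcc : cc θ e = ∑ η ∈ hfin.toFinset, a η * cc θ (kap p K η) := by
    unfold cc
    rw [finsum_eq_sum_of_fintype]
    have h1 : ∀ η, a η * ((∑ᶠ x, kap p K η x * θ x) / θ 1) = (∑ x, a η * kap p K η x * θ x) / θ 1 := by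
      intro η
      rw [finsum_eq_sum_of_fintype, mul_div_assoc', Finset.mul_sum]
      congr 1
      exact Finset.sum_congr rfl fun x _ => by ring
    rw [Finset.sum_congr rfl fun η _ => h1 η, ← Finset.sum_div, Finset.sum_comm]
    congr 1
    refine Finset.sum_congr rfl fun x _ => ?_
    rw [hee x, Finset.sum_mul]
  by_contra hcon
  push Not at hcon
  have hall : ∀ η ∈ IrrOn K, InM M (cc θ (kap p K η)) := by
    intro η hη
    by_cases hb : η ∈ Bl M K θ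
    · exact hcon η hb
    · have h1 := ((hQEI p M hS G K (Bl M K θ) b1).2.1 ψ hψb η hη hb).1
      have h2 := ZX0_cc p K ψ η h1
      obtain ⟨h3, h4⟩ := ZX0_kap hB2 p M hS K η hη
      have h5 := (hSBI p M hS G K θ ψ hSB).1 _ h3 h4
      rw [h2, sub_zero] at h5
      exact h5
  have h6 : InM M (cc θ e) := by
    rw [hcc]
    refine InM.sum hS _ fun η hη => ?_
    exact InM.mul_left hS (ha η) (hall η (hfin.mem_toFinset.1 hη))
  have h7 := (hSBI p M hS G K θ ψ hSB).1 e b2 b3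
  rw [b5 ψ hψb] at h7
  have h8 := InM.sub hS h6 h7
  rw [sub_sub_cancel] at h8
  exact InM.not_one hS h8

end Pool.Agent.GB
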